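import Mathlib

namespace Pool.Agent.MP_52931c_nt

/-- `A` nearly contains a `(t,d,w)`-progression: for some starting point `b ≥ 0`, each block
`I_i = [b + i d, b + i d + w]` with `1 ≤ i ≤ t - 1` meets `A`. -/
def NearlyContains (A : Finset ℕ) (t d w : ℕ) : Prop :=
  ∃ b : ℕ, ∀ i : ℕ, 1 ≤ i → i ≤ t - 1 → ∃ a ∈ A, b + i * d ≤ a ∧ a ≤ b + i * d + w

/-- `(d,w)` is admissible for `n`: `d` is a power of two and `w / d < d / n`. -/
def Admissible (n d w : ℕ) : Prop :=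
  (∃ j : ℕ, d = 2 ^ j) ∧ (w : ℝ) / (d : ℝ) < (d : ℝ) / (n : ℝ)

/-- `g t n` is the largest grid value `x ∈ {0, 1/n, ..., 1}` such that some `A ⊆ [1,n]` has
`|A| ≥ x n` and nearly contains no `(t,d,w)`-progression with `(d,w)` admissible for `n`. -/
noncomputable def g (t n : ℕ) : ℝ :=
  sSup {x : ℝ | (∃ m : ℕ, m ≤ n ∧ x = (m : ℝ) / (n : ℝ)) ∧
    ∃ A : Finset ℕ, A ⊆ Finset.Icc 1 n ∧ x * (n : ℝ) ≤ (A.card : ℝ) ∧
      ∀ d w : ℕ, Admissible n d w → ¬ NearlyContains A t d w}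

end Pool.Agent.MP_52931c_nt
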