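import Pool.Agent.MP_52931c_nt.Defs

namespace Pool.Agent.MP_52931c_nt

open Finset

/-- One scale: two numbers with the same colour at scale `r` do not differ by `2^j ± w`. -/
theorem scale_sep (r j w a a' b : ℕ) (hrj : r ≤ j) (hw : 2 * w ≤ 2 ^ r)
    (h1 : b + 2 ^ j ≤ a) (h2 : a ≤ b + 2 ^ j + w)
    (h3 : b + 2 * 2 ^ j ≤ a') (h4 : a' ≤ b + 2 * 2 ^ j + w)
    (hc : (2 * a / 2 ^ r) % 6 = (2 * a' / 2 ^ r) % 6) : False := by
  obtain ⟨e, rfl⟩ := Nat.exists_eq_add_of_le hrj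
  have hP : 0 < 2 ^ r := by positivity
  set P := 2 ^ r with hPdef
  have hpow : 2 ^ (r + e) = P * 2 ^ e := by rw [pow_add]
  have hE : 2 ^ e % 3 = 1 ∨ 2 ^ e % 3 = 2 := by
    have h3 : ¬ (3 ∣ 2 ^ e) := by
      intro h
      have := (Nat.Prime.dvd_of_dvd_pow Nat.prime_three h)
      omega
    omega
  set E := 2 ^ e with hEdef
  rw [hpow] at h1 h2 h3 h4
  set q := 2 * a / P with hq
  set q' := 2 * a' / P with hq'
  have ha1 : P * q ≤ 2 * a := Nat.mul_div_le _ _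
  have ha2 : 2 * a < P * (q + 1) := Nat.lt_mul_div_succ _ hP
  have hb1 : P * q' ≤ 2 * a' := Nat.mul_div_le _ _
  have hb2 : 2 * a' < P * (q' + 1) := Nat.lt_mul_div_succ _ hP
  -- q' - q lies strictly between 2E - 2 and 2E + 2
  have hlow : P * (q + 2 * E) < P * (q' + 2) := by
    have : P * (q + 2 * E) = P * q + 2 * (P * E) := by ring
    have h' : P * (q' + 2) = P * (q' + 1) + P := by ring
    omega
  have hup : P * q' < P * (q + 2 * E + 2) := by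
    have : P * (q + 2 * E + 2) = P * (q + 1) + 2 * (P * E) + P := by ring
    omega
  have hlow' := Nat.lt_of_mul_lt_mul_left hlow
  have hup' := Nat.lt_of_mul_lt_mul_left hup
  omega

/-- The scales `r_s = L - 2^s` cover every admissible pair. -/
theorem exists_scale (n j w : ℕ) (hn : 2 * 2 ^ j ≤ n) (hadm : w * n < 2 ^ j * 2 ^ j) :
    ∃ s, s ≤ Nat.clog 2 (Nat.log 2 n) ∧ Nat.log 2 n - 2 ^ s ≤ j ∧
      2 * w ≤ 2 ^ (Nat.log 2 n - 2 ^ s) := by
  set L := Nat.log 2 n with hL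
  have hn0 : n ≠ 0 := by
    have : 0 < 2 ^ j := by positivity
    omega
  have hLn : 2 ^ L ≤ n := Nat.pow_log_le_self 2 hn0
  have hjL : j + 1 ≤ L := by
    apply Nat.le_log_of_pow_le (by norm_num)
    rw [pow_succ]; omega
  set i := L - j with hi
  have hi1 : 1 ≤ i := by omega
  refine ⟨Nat.clog 2 i, Nat.clog_mono_right 2 (by omega), ?_, ?_⟩
  · have : i ≤ 2 ^ Nat.clog 2 i := Nat.le_pow_clog (by norm_num) i
    omega
  · have hlt : 2 ^ Nat.clog 2 i < 2 * i := by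
      rcases Nat.eq_or_lt_of_le hi1 with h | h
      · rw [← h]; simp
      · have h5 := Nat.pow_pred_clog_lt_self (b := 2) (by norm_num) h
        have hc : 0 < Nat.clog 2 i := Nat.clog_pos (by norm_num) h
        have h6 : 2 ^ Nat.clog 2 i = 2 * 2 ^ (Nat.clog 2 i).pred := by
          conv_lhs => rw [← Nat.succ_pred_eq_of_pos hc]
          rw [pow_succ]; ring
        omega
    rcases Nat.eq_zero_or_pos w with hw | hw
    · rw [hw]; simp
    · have h7 : w * 2 ^ L < 2 ^ (2 * j) := by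
        calc w * 2 ^ L ≤ w * n := Nat.mul_le_mul_left _ hLn
          _ < 2 ^ j * 2 ^ j := hadm
          _ = 2 ^ (2 * j) := by rw [← pow_add]; congr 1; ring
      have h8 : L < 2 * j := by
        have : 2 ^ L < 2 ^ (2 * j) := lt_of_le_of_lt (Nat.le_mul_of_pos_left _ hw) h7
        exact (Nat.pow_lt_pow_iff_right (by norm_num)).1 this
      have h9 : w < 2 ^ (2 * j - L) := by
        have : 2 ^ (2 * j) = 2 ^ (2 * j - L) * 2 ^ L := by
          rw [← pow_add]; congr 1; omega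
        rw [this] at h7
        exact Nat.lt_of_mul_lt_mul_right h7
      have h10 : 2 ^ (2 * j - L + 1) ≤ 2 ^ (L - 2 ^ Nat.clog 2 i) :=
        Nat.pow_le_pow_right (by norm_num) (by omega)
      rw [pow_succ] at h10
      omega

/-- The multi-scale colouring. -/
def col (n a : ℕ) : Fin (Nat.clog 2 (Nat.log 2 n) + 1) → Fin 6 :=
  fun s => ⟨(2 * a / 2 ^ (Nat.log 2 n - 2 ^ (s : ℕ))) % 6, Nat.mod_lt _ (by norm_num)⟩

theorem class_avoids (t n : ℕ) (ht : 3 ≤ t) (c : Fin (Nat.clog 2 (Nat.log 2 n) + 1) → Fin 6)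
    (d w : ℕ) (hadm : Admissible n d w) :
    ¬ NearlyContains ((Icc 1 n).filter (fun a => col n a = c)) t d w := by
  rintro ⟨b, hb⟩
  obtain ⟨⟨j, rfl⟩, hlt⟩ := hadm
  obtain ⟨a, ha, h1, h2⟩ := hb 1 le_rfl (by omega)
  obtain ⟨a', ha', h3, h4⟩ := hb 2 (by omega) (by omega)
  rw [mem_filter, mem_Icc] at ha ha'
  have hn : 2 * 2 ^ j ≤ n := by omega
  have hpos : 0 < 2 ^ j := by positivity
  have hnpos : (0 : ℝ) < n := by
    have : 0 < n := by omega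
    exact_mod_cast this
  have hadm' : w * n < 2 ^ j * 2 ^ j := by
    have hd : (0 : ℝ) < ((2 ^ j : ℕ) : ℝ) := by exact_mod_cast hpos
    rw [div_lt_div_iff₀ hd hnpos] at hlt
    exact_mod_cast hlt
  obtain ⟨s, hs, hr, hw⟩ := exists_scale n j w hn hadm'
  have hc : col n a ⟨s, by omega⟩ = col n a' ⟨s, by omega⟩ := by rw [ha.2, ha'.2]
  simp only [col, Fin.mk.injEq] at hc
  exact scale_sep _ j w a a' b hr hw (by omega) (by omega) h3 h4 hc

theorem g_ge (t n : ℕ) (ht : 3 ≤ t) (hn : 0 < n) :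
    1 / (6 : ℝ) ^ (Nat.clog 2 (Nat.log 2 n) + 1) ≤ g t n := by
  set S := Nat.clog 2 (Nat.log 2 n) with hS
  have hnpos : (0 : ℝ) < n := by exact_mod_cast hn
  have hpig := Finset.exists_le_card_fiber_of_nsmul_le_card_of_maps_to
    (s := Icc 1 n) (t := (univ : Finset (Fin (S + 1) → Fin 6))) (f := col n)
    (b := (n : ℝ) / (6 : ℝ) ^ (S + 1)) (fun a _ => mem_univ _) univ_nonempty (by
      simp only [card_univ, Fintype.card_fun, Fintype.card_fin, Nat.card_Icc, nsmul_eq_mul]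
      push_cast
      rw [mul_div_cancel₀ _ (by positivity)])
  obtain ⟨c, -, hc⟩ := hpig
  set A := (Icc 1 n).filter (fun a => col n a = c) with hA
  have hAn : A.card ≤ n := by
    calc A.card ≤ (Icc 1 n).card := card_filter_le _ _
      _ = n := by simp
  have hmem : (A.card : ℝ) / n ∈ {x : ℝ | (∃ m : ℕ, m ≤ n ∧ x = (m : ℝ) / (n : ℝ)) ∧
      ∃ A : Finset ℕ, A ⊆ Finset.Icc 1 n ∧ x * (n : ℝ) ≤ (A.card : ℝ) ∧
        ∀ d w : ℕ, Admissible n d w → ¬ NearlyContains A t d w} := by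
    refine ⟨⟨A.card, hAn, rfl⟩, A, filter_subset _ _, ?_, fun d w h => class_avoids t n ht c d w h⟩
    rw [div_mul_cancel₀ _ hnpos.ne']
  have hbdd : BddAbove {x : ℝ | (∃ m : ℕ, m ≤ n ∧ x = (m : ℝ) / (n : ℝ)) ∧
      ∃ A : Finset ℕ, A ⊆ Finset.Icc 1 n ∧ x * (n : ℝ) ≤ (A.card : ℝ) ∧
        ∀ d w : ℕ, Admissible n d w → ¬ NearlyContains A t d w} := by
    refine ⟨1, ?_⟩
    rintro x ⟨⟨m, hm, rfl⟩, -⟩
    rw [div_le_one hnpos]
    exact_mod_cast hm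
  refine le_trans ?_ (le_csSup hbdd hmem)
  rw [le_div_iff₀ hnpos]
  calc 1 / (6 : ℝ) ^ (S + 1) * n = (n : ℝ) / (6 : ℝ) ^ (S + 1) := by ring
    _ ≤ _ := hc

theorem colours_le (n : ℕ) (hn0 : n ≠ 0) (hL0 : 200000 ≤ Nat.log 2 n) :
    (6 : ℝ) ^ (Nat.clog 2 (Nat.log 2 n) + 1) ≤ (Real.log n) ^ 3 := by
  set L := Nat.log 2 n with hL
  set S := Nat.clog 2 L with hS
  have hLn : 2 ^ L ≤ n := Nat.pow_log_le_self 2 hn0
  have hS2 : 2 ^ S ≤ 2 * L := by
    have h : 1 < L := by omega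
    have h5 := Nat.pow_pred_clog_lt_self (b := 2) (by norm_num) h
    have hc : 0 < Nat.clog 2 L := Nat.clog_pos (by norm_num) h
    have h6 : 2 ^ Nat.clog 2 L = 2 * 2 ^ (Nat.clog 2 L).pred := by
      conv_lhs => rw [← Nat.succ_pred_eq_of_pos hc]
      rw [pow_succ]; ring
    rw [hS, h6]
    omega
  have hlog : (L : ℝ) * (69 / 100) ≤ Real.log n := by
    have h1 : Real.log ((2 : ℝ) ^ L) ≤ Real.log n := by
      apply Real.log_le_log (by positivity)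
      exact_mod_cast hLn
    rw [Real.log_pow] at h1
    have h2 := Real.log_two_gt_d9
    have h3 : (0 : ℝ) ≤ L := by positivity
    nlinarith
  have hLr : (200000 : ℝ) ≤ L := by exact_mod_cast hL0
  have hS2r : (2 : ℝ) ^ S ≤ 2 * L := by exact_mod_cast hS2
  have key : ((6 : ℝ) ^ (S + 1)) ^ 5 ≤ (((L : ℝ) * (69 / 100)) ^ 3) ^ 5 := by
    have e1 : ((6 : ℝ) ^ (S + 1)) ^ 5 = 7776 * (7776 : ℝ) ^ S := by
      rw [← pow_mul, mul_comm (S + 1) 5, pow_mul, pow_succ]; norm_num; ring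
    have e2 : (7776 : ℝ) ^ S ≤ ((2 : ℝ) ^ S) ^ 13 := by
      rw [← pow_mul, mul_comm S 13, pow_mul]
      exact pow_le_pow_left₀ (by norm_num) (by norm_num) S
    have e3 : ((2 : ℝ) ^ S) ^ 13 ≤ (2 * (L : ℝ)) ^ 13 := pow_le_pow_left₀ (by positivity) hS2r 13
    have e4 : (((L : ℝ) * (69 / 100)) ^ 3) ^ 5 = (L : ℝ) ^ 13 * ((L : ℝ) ^ 2 * (69 / 100) ^ 15) := by
      ring
    have e5 : (7776 : ℝ) * 2 ^ 13 ≤ (L : ℝ) ^ 2 * (69 / 100) ^ 15 := by
      have : (200000 : ℝ) ^ 2 ≤ (L : ℝ) ^ 2 := pow_le_pow_left₀ (by norm_num) hLr 2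
      calc (7776 : ℝ) * 2 ^ 13 ≤ (200000 : ℝ) ^ 2 * (69 / 100) ^ 15 := by norm_num
        _ ≤ _ := by gcongr
    rw [e1, e4]
    calc 7776 * (7776 : ℝ) ^ S ≤ 7776 * (2 * (L : ℝ)) ^ 13 := by
          gcongr; exact e2.trans e3
      _ = (L : ℝ) ^ 13 * (7776 * 2 ^ 13) := by ring
      _ ≤ _ := by gcongr
  have key' : (6 : ℝ) ^ (S + 1) ≤ ((L : ℝ) * (69 / 100)) ^ 3 :=
    le_of_pow_le_pow_left₀ (by norm_num) (by positivity) key
  exact key'.trans (pow_le_pow_left₀ (by positivity) hlog 3)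

theorem main (t : ℕ) (ht : 3 ≤ t) :
    ∃ n₀ : ℕ, ∀ n : ℕ, n₀ ≤ n → 1 / (Real.log n) ^ 3 ≤ g t n := by
  obtain ⟨e, he⟩ : ∃ e : ℕ, 200000 ≤ e := ⟨_, le_rfl⟩
  refine ⟨2 ^ e, fun n hn => ?_⟩
  have hn0 : 0 < n := lt_of_lt_of_le (by positivity) hn
  have hL : e ≤ Nat.log 2 n := Nat.le_log_of_pow_le (by norm_num) hn
  refine le_trans ?_ (g_ge t n ht hn0)
  exact one_div_le_one_div_of_le (by positivity) (colours_le n hn0.ne' (he.trans hL))

end Pool.Agent.MP_52931c_nt
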